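import Pool.Agent.Helper23.KU.Mm

/-!
# KR, piece E1: maximum principle on the annulus for a quotient
-/

set_option autoImplicit false

namespace Pool.Agent.Helper23.KU

open Polynomial Filter Topology Metric MeasureTheory Set

theorem ann_max {c : ℝ} (h0 : 0 < c) (h1 : c < 1) {A B : ℂ → ℂ}
    (hA : DifferentiableOn ℂ A (ball 0 1)) (hB : DifferentiableOn ℂ B (ball 0 1))
    (hB0 : ∀ z : ℂ, c ≤ ‖z‖ → ‖z‖ < 1 → B z ≠ 0) (hc : ∀ z : ℂ, ‖z‖ = c → ‖A z‖ ≤ ‖B z‖)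
    (hlim : ∀ δ > 0, ∃ r < 1, ∀ z : ℂ, r ≤ ‖z‖ → ‖z‖ < 1 → ‖A z‖ ≤ (1 + δ) * ‖B z‖) :
    ∀ z : ℂ, c ≤ ‖z‖ → ‖z‖ < 1 → ‖A z‖ ≤ ‖B z‖ := by
  intro z hz hz1
  have hkey : ∀ δ > 0, ‖A z‖ ≤ (1 + δ) * ‖B z‖ := by
    intro δ hδ
    obtain ⟨r, hr, hr1⟩ := hlim δ hδ
    set ρ : ℝ := max r ((‖z‖ + 1) / 2) with hρ
    have hρ1 : ρ < 1 := max_lt hr (by linarith)
    have hzρ : ‖z‖ ≤ ρ := le_trans (by linarith) (le_max_right _ _)
    have hVo : IsOpen (ball (0 : ℂ) 1 ∩ B ⁻¹' {0}ᶜ) :=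
      hB.continuousOn.isOpen_inter_preimage isOpen_ball isOpen_compl_singleton
    have hG : DifferentiableOn ℂ (fun w => A w / B w) (ball (0 : ℂ) 1 ∩ B ⁻¹' {0}ᶜ) :=
      (hA.mono inter_subset_left).div (hB.mono inter_subset_left) fun w hw => hw.2
    have hm := max_annulus (c := c) (r := ρ) (K := 1 + δ) (V := ball (0 : ℂ) 1 ∩ B ⁻¹' {0}ᶜ)
      (G := fun w => A w / B w)
      (fun w hw1 hw2 => ⟨mem_ball_zero_iff.2 (by linarith), hB0 w hw1 (by linarith)⟩) hVo hG ?_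
      hz hzρ
    · have hBz : 0 < ‖B z‖ := norm_pos_iff.2 (hB0 z hz hz1)
      rwa [norm_div, div_le_iff₀ hBz] at hm
    · rintro w (hw | hw)
      · have hBw : 0 < ‖B w‖ := norm_pos_iff.2 (hB0 w hw.ge (by linarith))
        rw [norm_div, div_le_iff₀ hBw]
        nlinarith [hc w hw]
      · have hBw : 0 < ‖B w‖ := norm_pos_iff.2 (hB0 w (by linarith) (by linarith))
        rw [norm_div, div_le_iff₀ hBw]
        exact hr1 w (by rw [hw]; exact le_max_left _ _) (by linarith)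
  refine le_of_forall_pos_le_add fun ε hε => ?_
  have h2 := hkey (ε / (‖B z‖ + 1)) (by positivity)
  have h3 : ε / (‖B z‖ + 1) * ‖B z‖ ≤ ε := by
    rw [div_mul_eq_mul_div, div_le_iff₀ (by positivity)]
    nlinarith [norm_nonneg (B z)]
  linarith

end Pool.Agent.Helper23.KU
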